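import Pool.Agent.Q119.SM.Main

/-!
# Free copies of a graph under disjoint edge maps: the bound `C (m / √n + n)` fails

`Disj N f`: `f` sends every edge of the complete graph on `Fin N` to an edge which has no vertex in
common with it (edges are non-diagonal elements of `Sym2 (Fin N)`, i.e. unordered pairs of different
vertices; the values on the diagonal are irrelevant). `Free G f φ`: the copy of `G` in the complete
graph given by the injective map `φ` is `f`-free, that is `f (φ e) ≠ φ e'` for all edges `e`, `e'` of
`G`. `Good G N`: for every such `f` there is an `f`-free copy of `G` in the complete graph on `N`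
vertices; so `g₀ G` is the least `N` with `Good G N`. (For `N = 2, 3` there are no such `f` at all, and
`Good G N` holds for trivial reasons; these two values are excluded by `4 ≤ N`. `N = 0, 1` are
impossible for a graph with more than one vertex.)

The counterexamples consist of a clique with `s = k ^ 3` vertices and `n - s` pendant edges at one of
its vertices, `n = k ^ 4`: then `m / √n + n ≤ 5 / 2 k ^ 4`, but `g₀ G ≥ g₀ (K_s)` is at least of the
order `s ^ (3 / 2) / √(log s)`, which is `k ^ (9 / 2) / √(log k)`.
-/

set_option autoImplicit false

namespace Pool.Agent.Results.MP_48292c_co.Disproof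

open Q119.SM

/-- For every constant `C` there is a connected graph `G` with `n` vertices, `m` edges and without
isolated vertices such that every `N ≥ 4` with the property in the definition of `g₀ G` is larger
than `C (m / √n + n)`. -/
theorem result (C : ℝ) :
    ∃ (n : ℕ) (G : SimpleGraph (Fin n)), G.Connected ∧ (∀ v, ∃ w, G.Adj v w) ∧
      ∀ N : ℕ, 4 ≤ N → Good G N → C * ((G.edgeSet.ncard : ℝ) / Real.sqrt n + n) < N :=
  Q119.SM.main C

end Pool.Agent.Results.MP_48292c_co.Disproof
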